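import Pool.Agent.Lib.MP_2f4f34_gt.KOmega

/-!
# A coarser first countable Hausdorff group topology on a countable Hausdorff group
-/

set_option autoImplicit false

open Filter Topology Set Pointwise

namespace Pool.Agent.MP_2f4f34_gt

/-- For two group topologies, comparison of the neighbourhood filters of the identity is
enough. -/
theorem le_of_nhds_one_le {G : Type} [Group G] (t t' : TopologicalSpace G)
    (ht : @IsTopologicalGroup G t _) (ht' : @IsTopologicalGroup G t' _)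
    (h : @nhds G t 1 ≤ @nhds G t' 1) : t ≤ t' := by
  rw [@TopologicalSpace.le_def]
  intro s hs'
  rw [@isOpen_iff_mem_nhds _ t]
  intro a ha
  have e1 : @nhds _ t a = Filter.map (a * ·) (@nhds _ t 1) := by
    let := t
    have : IsTopologicalGroup G := ht
    exact (map_mul_left_nhds_one a).symm
  have e2 : @nhds _ t' a = Filter.map (a * ·) (@nhds _ t' 1) := by
    let := t'
    have : IsTopologicalGroup G := ht'
    exact (map_mul_left_nhds_one a).symm
  have h5 : s ∈ @nhds _ t' a := by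
    let := t'
    exact hs'.mem_nhds ha
  rw [e2] at h5
  rw [e1]
  exact Filter.map_mono h h5

section Coarse

variable {G : Type} [Group G] [τ : TopologicalSpace G] [IsTopologicalGroup G] [T2Space G]

/-- One step of the construction. -/
theorem coarse_step (g : ℕ → G) (n : ℕ) (U : Set G) (hU : U ∈ 𝓝 (1 : G)) :
    ∃ V : Set G, V ∈ 𝓝 (1 : G) ∧ (V ⊆ U ∧ V * V ⊆ U ∧ (∀ x ∈ V, x⁻¹ ∈ U) ∧
      (∀ i ≤ n, ∀ x ∈ V, g i * x * (g i)⁻¹ ∈ U) ∧ (g n ≠ 1 → g n ∉ V)) := by
  obtain ⟨V1, hV1, hV1U⟩ := exists_nhds_one_split hU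
  have h2 : ∀ᶠ x in 𝓝 (1 : G), x⁻¹ ∈ U := by
    have := continuous_inv.tendsto (1 : G)
    rw [inv_one] at this
    exact this.eventually hU
  have h3 : ∀ i, ∀ᶠ x in 𝓝 (1 : G), g i * x * (g i)⁻¹ ∈ U := by
    intro i
    have hc : Continuous fun x : G => g i * x * (g i)⁻¹ := by fun_prop
    have := hc.tendsto (1 : G)
    rw [mul_one, mul_inv_cancel] at this
    exact this.eventually hU
  have h4 : ∀ᶠ x in 𝓝 (1 : G), ∀ i ∈ Set.Iic n, g i * x * (g i)⁻¹ ∈ U := by
    rw [Filter.eventually_all_finite (Set.finite_Iic n)]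
    exact fun i _ => h3 i
  have h5 : ∀ᶠ x in 𝓝 (1 : G), g n ≠ 1 → x ≠ g n := by
    by_cases h : g n = 1
    · exact Filter.Eventually.of_forall fun x hx => absurd h hx
    · have := isOpen_ne.mem_nhds (show (1 : G) ≠ g n from fun h' => h h'.symm)
      filter_upwards [this] with x hx _
      exact hx
  have hV : {x | x ∈ U ∧ x ∈ V1 ∧ x⁻¹ ∈ U ∧ (∀ i ∈ Set.Iic n, g i * x * (g i)⁻¹ ∈ U) ∧
      (g n ≠ 1 → x ≠ g n)} ∈ 𝓝 (1 : G) := by
    filter_upwards [hU, hV1, h2, h4, h5] with x a b c d e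
    exact ⟨a, b, c, d, e⟩
  refine ⟨_, hV, ?_, ?_, ?_, ?_, ?_⟩
  · exact fun x hx => hx.1
  · rintro _ ⟨x, hx, y, hy, rfl⟩
    exact hV1U x hx.2.1 y hy.2.1
  · exact fun x hx => hx.2.2.1
  · exact fun i hi x hx => hx.2.2.2.1 i hi
  · intro hn hmem
    exact hmem.2.2.2.2 hn rfl

/-- A countable Hausdorff group carries a decreasing sequence of neighbourhoods of the identity
forming a base of a Hausdorff group topology. -/
theorem exists_coarse [Countable G] :
    ∃ (t : TopologicalSpace G) (V : ℕ → Set G), @IsTopologicalGroup G t _ ∧ @T2Space G t ∧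
      τ ≤ t ∧ Antitone V ∧
      (@nhds G t 1).HasBasis (fun _ : ℕ => True) V := by
  obtain ⟨g, hg⟩ := exists_surjective_nat G
  obtain ⟨V, -, hV, hP⟩ := dep_choice (fun U : Set G => U ∈ 𝓝 (1 : G))
    (fun n U V => V ⊆ U ∧ V * V ⊆ U ∧ (∀ x ∈ V, x⁻¹ ∈ U) ∧
      (∀ i ≤ n, ∀ x ∈ V, g i * x * (g i)⁻¹ ∈ U) ∧ (g n ≠ 1 → g n ∉ V))
    Set.univ Filter.univ_mem (fun n U hU => coarse_step g n U hU)
  have hanti : Antitone V := antitone_nat_of_succ_le fun n => (hP n).1
  let B : GroupFilterBasis G :=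
    { sets := Set.range V
      nonempty := ⟨_, 0, rfl⟩
      inter_sets := by
        rintro _ _ ⟨i, rfl⟩ ⟨j, rfl⟩
        refine ⟨_, ⟨max i j, rfl⟩, ?_⟩
        exact Set.subset_inter (hanti (le_max_left i j)) (hanti (le_max_right i j))
      one' := by
        rintro _ ⟨j, rfl⟩
        exact mem_of_mem_nhds (hV j)
      mul' := by
        rintro _ ⟨j, rfl⟩
        exact ⟨_, ⟨j + 1, rfl⟩, (hP j).2.1⟩
      inv' := by
        rintro _ ⟨j, rfl⟩
        exact ⟨_, ⟨j + 1, rfl⟩, (hP j).2.2.1⟩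
      conj' := by
        rintro x _ ⟨j, rfl⟩
        obtain ⟨i, rfl⟩ := hg x
        refine ⟨_, ⟨max i j + 1, rfl⟩, ?_⟩
        intro y hy
        exact hanti (le_max_right i j) ((hP (max i j)).2.2.2.1 i (le_max_left i j) y hy) }
  have hB : (@nhds G B.topology 1).HasBasis (fun _ : ℕ => True) V := by
    have h := B.nhds_one_hasBasis
    constructor
    intro t
    rw [h.mem_iff]
    constructor
    · rintro ⟨_, ⟨j, rfl⟩, hj⟩
      exact ⟨j, trivial, hj⟩
    · rintro ⟨j, -, hj⟩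
      exact ⟨_, ⟨j, rfl⟩, hj⟩
  refine ⟨B.topology, V, B.isTopologicalGroup, ?_, ?_, hanti, hB⟩
  · let := B.topology
    rw [GroupFilterBasis.t2Space_iff_sInter_subset B rfl]
    intro x hx
    obtain ⟨n, rfl⟩ := hg x
    by_contra hne
    exact (hP n).2.2.2.2 hne (hx _ ⟨n + 1, rfl⟩)
  · apply le_of_nhds_one_le _ _ inferInstance B.isTopologicalGroup
    intro s hs
    obtain ⟨n, -, hn⟩ := hB.mem_iff.1 hs
    exact Filter.mem_of_superset (hV n) hn

end Coarse

end Pool.Agent.MP_2f4f34_gt
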