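import Pool.Agent.Lib.MP_2f4f34_gt.Upper

/-!
# The sequence-rank of countable Frechet-Urysohn groups and the bounding number
-/

set_option autoImplicit false

open Filter Topology Set Pointwise

namespace Pool.Agent.MP_2f4f34_gt.CountableCase

open Pool.Agent.MP_2f4f34_gt

theorem lower (G : Type) [Group G] [Countable G] [t : TopologicalSpace G] [IsTopologicalGroup G]
    [T2Space G] [FrechetUrysohnSpace G] (hnd : ¬ DiscreteTopology G) :
    boundingNumber ≤ seqRank G t := by
  apply le_csInf
  · exact ⟨_, _, rfl, generates_null_sequences G⟩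
  · rintro κ ⟨S, rfl, hS⟩
    exact bounding_le_of_generates G t inferInstance inferInstance inferInstance hnd S hS

theorem upper (G : Type) [Group G] [Countable G] [t : TopologicalSpace G] [IsTopologicalGroup G]
    [T2Space G] [FirstCountableTopology G] : seqRank G t ≤ boundingNumber := by
  obtain ⟨S, hS, hgen⟩ := exists_generates_le_bounding G
  exact (csInf_le' ⟨S, rfl, hgen⟩ : seqRank G t ≤ Cardinal.mk S).trans hS

/-- Countable non-discrete Frechet-Urysohn groups have sequence-rank at least `𝔟`, countable
non-discrete metrizable groups have sequence-rank exactly `𝔟`, and so a countable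
Frechet-Urysohn group of sequence-rank `ω₁` exists if and only if `𝔟 = ω₁`. -/
theorem main :
    (∀ (G : Type) [Group G] [t : TopologicalSpace G] [IsTopologicalGroup G] [T2Space G],
      Countable G → FrechetUrysohnSpace G → ¬ DiscreteTopology G →
        boundingNumber ≤ seqRank G t) ∧
    (∀ (G : Type) [Group G] [t : TopologicalSpace G] [IsTopologicalGroup G] [T2Space G],
      Countable G → TopologicalSpace.MetrizableSpace G → ¬ DiscreteTopology G →
        seqRank G t = boundingNumber) ∧
    ((∃ (G : Type) (_ : Group G) (t : TopologicalSpace G),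
      IsTopologicalGroup G ∧ T2Space G ∧ Countable G ∧ FrechetUrysohnSpace G ∧
        seqRank G t = Cardinal.aleph 1) ↔ boundingNumber = Cardinal.aleph 1) := by
  refine ⟨?_, ?_, ?_, ?_⟩
  · intro G _ t _ _ _ _ hnd
    exact lower G hnd
  · intro G _ t _ _ _ _ hnd
    exact le_antisymm (upper G) (lower G hnd)
  · rintro ⟨G, hG, t, h1, h2, h3, h4, h5⟩
    refine le_antisymm ?_ aleph_one_le_bounding
    rw [← h5]
    apply lower G
    intro hd
    rw [seqRank_discrete G hd] at h5
    exact (Cardinal.aleph_pos 1).ne h5
  · intro hb
    have h2 : T2Space (Multiplicative ℚ) := inferInstanceAs (T2Space ℚ)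
    have h4 : FirstCountableTopology (Multiplicative ℚ) :=
      inferInstanceAs (FirstCountableTopology ℚ)
    have h3 : Countable (Multiplicative ℚ) := inferInstanceAs (Countable ℚ)
    refine ⟨Multiplicative ℚ, inferInstance, inferInstance, inferInstance, h2, h3,
      inferInstance, ?_⟩
    rw [← hb]
    refine le_antisymm (upper _) (lower _ ?_)
    intro hd
    have hd' : DiscreteTopology ℚ := hd
    have h6 : (𝓝[≠] (0 : ℚ)).NeBot := inferInstance
    rw [discreteTopology_iff_nhds_ne] at hd'
    exact h6.ne (hd' 0)

end Pool.Agent.MP_2f4f34_gt.CountableCase
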