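import Mathlib

/-!
# Sequence-rank of topological groups: definitions

The definitions used in the hand-ins for problem MP_2f4f34_gt.
-/

set_option autoImplicit false

open Filter Topology Set

namespace Pool.Agent.MP_2f4f34_gt

/-- `t` is a Hausdorff group topology on `G` in which every sequence of the family `S`
converges to the identity. -/
def Admissible (G : Type) [Group G] (S : Set (ℕ → G)) (t : TopologicalSpace G) : Prop :=
  @IsTopologicalGroup G t _ ∧ @T2Space G t ∧ ∀ u ∈ S, Tendsto u atTop (@nhds G t 1)

/-- `t` is the finest Hausdorff group topology on `G` in which every sequence of `S` converges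
to the identity; that is, `S` is a `T_s`-set and `t = τ_S`. In Mathlib's order on topologies
`t ≤ t'` says that `t` is finer than `t'`. -/
def Generates (G : Type) [Group G] (S : Set (ℕ → G)) (t : TopologicalSpace G) : Prop :=
  Admissible G S t ∧ ∀ t' : TopologicalSpace G, Admissible G S t' → t ≤ t'

/-- The sequence-rank `r_s(G, t)`: the least cardinality of a set `S` of sequences
with `τ_S = t`. -/
noncomputable def seqRank (G : Type) [Group G] (t : TopologicalSpace G) : Cardinal.{0} :=
  sInf {κ : Cardinal.{0} | ∃ S : Set (ℕ → G), Cardinal.mk S = κ ∧ Generates G S t}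

/-- The bounding number `𝔟`: the least cardinality of a family of functions `ℕ → ℕ` that is
unbounded in the order of eventual domination. -/
noncomputable def boundingNumber : Cardinal.{0} :=
  sInf {κ : Cardinal.{0} | ∃ B : Set (ℕ → ℕ), Cardinal.mk B = κ ∧
    ¬ ∃ g : ℕ → ℕ, ∀ f ∈ B, ∀ᶠ n in atTop, f n ≤ g n}

end Pool.Agent.MP_2f4f34_gt
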