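import Pool.Agent.Lib.MP_2f4f34_gt.Semi

/-!
# The group: an elementary abelian 2-group on `ℕ × ω₁`, extended by automorphisms
-/

set_option autoImplicit false

open Filter Topology Set Pointwise

namespace Pool.Agent.MP_2f4f34_gt

section Ex

variable (I : Type) [LinearOrder I]

/-- The elementary abelian 2-group with basis `ℕ × I`. -/
abbrev A : Type := (ℕ × I) →₀ ZMod 2

/-- Its multiplicative copy. -/
abbrev N : Type := Multiplicative (A I)

variable {I}

/-- Elements supported in levels `≥ j`. -/
noncomputable def levelSub (j : ℕ) : Subgroup (N I) where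
  carrier := {x | ∀ p : ℕ × I, p.1 < j → (Multiplicative.toAdd x) p = 0}
  mul_mem' := by
    intro a b ha hb p hp
    simp [ha p hp, hb p hp]
  one_mem' := by
    intro p hp
    simp
  inv_mem' := by
    intro a ha p hp
    simp [ha p hp]

/-- Elements supported in columns `< β`. -/
noncomputable def colSub (β : I) : Subgroup (N I) where
  carrier := {x | ∀ p : ℕ × I, β ≤ p.2 → (Multiplicative.toAdd x) p = 0}
  mul_mem' := by
    intro a b ha hb p hp
    simp [ha p hp, hb p hp]
  one_mem' := by
    intro p hp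
    simp
  inv_mem' := by
    intro a ha p hp
    simp [ha p hp]

theorem mem_levelSub {j : ℕ} {x : N I} :
    x ∈ levelSub j ↔ ∀ p : ℕ × I, p.1 < j → (Multiplicative.toAdd x) p = 0 := Iff.rfl

theorem mem_colSub {β : I} {x : N I} :
    x ∈ colSub β ↔ ∀ p : ℕ × I, β ≤ p.2 → (Multiplicative.toAdd x) p = 0 := Iff.rfl

theorem levelSub_anti : Antitone (levelSub : ℕ → Subgroup (N I)) := by
  intro i j hij x hx p hp
  exact hx p (lt_of_lt_of_le hp hij)

theorem colSub_mono : Monotone (colSub : I → Subgroup (N I)) := by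
  intro i j hij x hx p hp
  exact hx p (le_trans hij hp)

variable (I) in
/-- The group of automorphisms of `N` preserving all the subgroups `colSub β` and bicontinuous
for the level topology. -/
noncomputable def Gam : Subgroup (MulAut (N I)) where
  carrier := {γ | ((∀ (β : I) (x : N I), x ∈ colSub β → γ x ∈ colSub β) ∧
      (∀ j, ∃ j', ∀ x ∈ (levelSub j' : Subgroup (N I)), γ x ∈ levelSub j)) ∧
      ((∀ (β : I) (x : N I), x ∈ colSub β → γ⁻¹ x ∈ colSub β) ∧
      (∀ j, ∃ j', ∀ x ∈ (levelSub j' : Subgroup (N I)), γ⁻¹ x ∈ levelSub j))}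
  mul_mem' := by
    rintro a b ⟨⟨ha1, ha2⟩, ha3, ha4⟩ ⟨⟨hb1, hb2⟩, hb3, hb4⟩
    refine ⟨⟨?_, ?_⟩, ?_, ?_⟩
    · intro β x hx
      exact ha1 β _ (hb1 β x hx)
    · intro j
      obtain ⟨k, hk⟩ := ha2 j
      obtain ⟨l, hl⟩ := hb2 k
      exact ⟨l, fun x hx => hk _ (hl x hx)⟩
    · intro β x hx
      rw [mul_inv_rev]
      exact hb3 β _ (ha3 β x hx)
    · intro j
      obtain ⟨k, hk⟩ := hb4 j
      obtain ⟨l, hl⟩ := ha4 k
      refine ⟨l, fun x hx => ?_⟩
      rw [mul_inv_rev]
      exact hk _ (hl x hx)
  one_mem' := by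
    refine ⟨⟨fun β x hx => hx, fun j => ⟨j, fun x hx => hx⟩⟩, ?_, ?_⟩
    · intro β x hx
      simpa using hx
    · intro j
      exact ⟨j, fun x hx => by simpa using hx⟩
  inv_mem' := by
    rintro a ⟨h1, h2⟩
    refine ⟨h2, ?_⟩
    simpa using h1

theorem Gam_level (γ : Gam I) (j : ℕ) :
    ∃ j' : ℕ, ∀ n ∈ (levelSub j' : Subgroup (N I)), (Gam I).subtype γ n ∈ levelSub j :=
  γ.2.1.2 j

theorem Gam_col (γ : Gam I) (β : I) (x : N I) (hx : x ∈ colSub β) :
    (Gam I).subtype γ x ∈ colSub β :=
  γ.2.1.1 β x hx

variable (I) in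
/-- The group of the example. -/
abbrev Gp : Type := N I ⋊[(Gam I).subtype] Gam I

variable (I) in
/-- The metrizable topology of the example. -/
@[reducible] noncomputable def tau : TopologicalSpace (Gp I) :=
  (semiBasis (Gam I).subtype levelSub levelSub_anti Gam_level).topology

/-- The auxiliary subgroups used for the lower bound. -/
noncomputable def cutSub (β : I) (j : ℕ) : Subgroup (N I) := levelSub j ⊓ colSub β

theorem cutSub_anti (β : I) : Antitone (cutSub β) := by
  intro i j hij
  exact inf_le_inf_right _ (levelSub_anti hij)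

theorem Gam_cut (β : I) (γ : Gam I) (j : ℕ) :
    ∃ j' : ℕ, ∀ n ∈ cutSub β j', (Gam I).subtype γ n ∈ cutSub β j := by
  obtain ⟨j', hj'⟩ := Gam_level γ j
  exact ⟨j', fun n hn => ⟨hj' n hn.1, Gam_col γ β n hn.2⟩⟩

/-- The auxiliary finer topology. -/
@[reducible] noncomputable def tauCut (β : I) : TopologicalSpace (Gp I) :=
  (semiBasis (Gam I).subtype (cutSub β) (cutSub_anti β) (Gam_cut β)).topology

theorem level_bot (n : N I) (h : ∀ j, n ∈ (levelSub j : Subgroup (N I))) : n = 1 := by
  have : Multiplicative.toAdd n = 0 := by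
    ext p
    exact h (p.1 + 1) p (Nat.lt_succ_self _)
  exact this

theorem tau_group : @IsTopologicalGroup (Gp I) (tau I) _ :=
  (semiBasis (Gam I).subtype levelSub levelSub_anti Gam_level).isTopologicalGroup

theorem tau_t2 : @T2Space (Gp I) (tau I) := semi_t2 _ _ _ _ level_bot

theorem tauCut_group (β : I) : @IsTopologicalGroup (Gp I) (tauCut β) _ :=
  (semiBasis (Gam I).subtype (cutSub β) (cutSub_anti β) (Gam_cut β)).isTopologicalGroup

theorem tauCut_t2 (β : I) : @T2Space (Gp I) (tauCut β) :=
  semi_t2 _ _ _ _ fun n h => level_bot n fun j => (h j).1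

/-- The basis vector `e_(n,β)`. -/
noncomputable def bas (n : ℕ) (β : I) : N I :=
  Multiplicative.ofAdd (Finsupp.single (n, β) (1 : ZMod 2))

theorem bas_level (n : ℕ) (β : I) : bas n β ∈ (levelSub n : Subgroup (N I)) := by
  intro p hp
  have : (n, β) ≠ p := by
    rintro rfl
    exact lt_irrefl _ hp
  simp [bas, Finsupp.single_eq_of_ne' this]

theorem bas_not_col (n : ℕ) (β : I) : bas n β ∉ (colSub β : Subgroup (N I)) := by
  intro h
  have := h (n, β) le_rfl
  simp [bas] at this

theorem self_mul_self (x : N I) : x * x = 1 := by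
  have : Multiplicative.toAdd x + Multiplicative.toAdd x = 0 := by
    ext p
    exact CharTwo.add_self_eq_zero _
  exact this

/-- The linear map `e_(n,β) ↦ x n` and all other basis vectors to `0`. -/
noncomputable def shearL (β : I) (x : ℕ → N I) : A I →ₗ[ZMod 2] A I :=
  Finsupp.linearCombination (ZMod 2)
    (fun p : ℕ × I => if p.2 = β then Multiplicative.toAdd (x p.1) else 0)

theorem shearL_col (β : I) (x : ℕ → N I) (hx : ∀ n, x n ∈ (colSub β : Subgroup (N I))) (y : A I)
    (p : ℕ × I) (hp : β ≤ p.2) : shearL β x y p = 0 := by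
  unfold shearL
  rw [Finsupp.linearCombination_apply, Finsupp.sum, Finsupp.finsetSum_apply]
  apply Finset.sum_eq_zero
  intro q _
  by_cases hq : q.2 = β
  · simp [hq, hx q.1 p hp]
  · simp [hq]

theorem shearL_level (β : I) (x : ℕ → N I) (hx : ∀ n, x n ∈ (levelSub n : Subgroup (N I)))
    (j : ℕ) (y : A I) (hy : ∀ p : ℕ × I, p.1 < j → y p = 0)
    (p : ℕ × I) (hp : p.1 < j) : shearL β x y p = 0 := by
  unfold shearL
  rw [Finsupp.linearCombination_apply, Finsupp.sum, Finsupp.finsetSum_apply]
  apply Finset.sum_eq_zero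
  intro q hq
  have hqj : j ≤ q.1 := by
    by_contra h
    exact (Finsupp.mem_support_iff.1 hq) (hy q (not_le.1 h))
  by_cases hq' : q.2 = β
  · simp [hq', hx q.1 p (lt_of_lt_of_le hp hqj)]
  · simp [hq']

theorem shearL_zero (β : I) (x : ℕ → N I) (y : A I) (hy : ∀ n, y (n, β) = 0) :
    shearL β x y = 0 := by
  unfold shearL
  rw [Finsupp.linearCombination_apply, Finsupp.sum]
  apply Finset.sum_eq_zero
  intro q hq
  by_cases hq' : q.2 = β
  · have : y q = 0 := by
      have := hy q.1
      rwa [← hq'] at this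
    simp [this]
  · simp [hq']

theorem shearL_bas (β : I) (x : ℕ → N I) (n : ℕ) :
    shearL β x (Finsupp.single (n, β) 1) = Multiplicative.toAdd (x n) := by
  simp [shearL]

/-- The automorphism `y ↦ y + L y`. -/
noncomputable def shear (β : I) (x : ℕ → N I) (hx : ∀ n, x n ∈ (colSub β : Subgroup (N I))) :
    MulAut (N I) :=
  AddEquiv.toMultiplicative
    { toFun := fun y => y + shearL β x y
      invFun := fun y => y + shearL β x y
      left_inv := by
        intro y
        have h0 : shearL β x (shearL β x y) = 0 :=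
          shearL_zero β x _ fun n => shearL_col β x hx y (n, β) le_rfl
        have h2 : shearL β x y + shearL β x y = 0 := by
          ext p
          exact CharTwo.add_self_eq_zero _
        show y + shearL β x y + shearL β x (y + shearL β x y) = y
        rw [map_add, h0, add_zero, add_assoc, h2, add_zero]
      right_inv := by
        intro y
        have h0 : shearL β x (shearL β x y) = 0 :=
          shearL_zero β x _ fun n => shearL_col β x hx y (n, β) le_rfl
        have h2 : shearL β x y + shearL β x y = 0 := by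
          ext p
          exact CharTwo.add_self_eq_zero _
        show y + shearL β x y + shearL β x (y + shearL β x y) = y
        rw [map_add, h0, add_zero, add_assoc, h2, add_zero]
      map_add' := by
        intro y z
        simp only [map_add]
        abel }

theorem shear_apply (β : I) (x : ℕ → N I) (hx : ∀ n, x n ∈ (colSub β : Subgroup (N I)))
    (y : N I) : Multiplicative.toAdd (shear β x hx y) =
      Multiplicative.toAdd y + shearL β x (Multiplicative.toAdd y) := rfl

theorem shear_inv (β : I) (x : ℕ → N I) (hx : ∀ n, x n ∈ (colSub β : Subgroup (N I))) :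
    (shear β x hx)⁻¹ = shear β x hx := by
  ext1 y
  rfl

theorem shear_mem (β : I) (x : ℕ → N I) (hx : ∀ n, x n ∈ (colSub β : Subgroup (N I)))
    (hx' : ∀ n, x n ∈ (levelSub n : Subgroup (N I))) : shear β x hx ∈ Gam I := by
  have key : ((∀ (δ : I) (y : N I), y ∈ colSub δ → shear β x hx y ∈ colSub δ) ∧
      (∀ j, ∃ j', ∀ y ∈ (levelSub j' : Subgroup (N I)), shear β x hx y ∈ levelSub j)) := by
    constructor
    · intro δ y hy p hp
      rw [shear_apply, Finsupp.add_apply, hy p hp, zero_add]
      rcases le_or_gt δ β with h | h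
      · rw [shearL_zero β x _ fun n => hy (n, β) h]
        rfl
      · exact shearL_col β x hx _ p (le_trans h.le hp)
    · intro j
      refine ⟨j, fun y hy p hp => ?_⟩
      rw [shear_apply, Finsupp.add_apply, hy p hp, zero_add]
      exact shearL_level β x hx' j _ hy p hp
  refine ⟨key, ?_⟩
  rw [shear_inv]
  exact key

theorem shear_bas (β : I) (x : ℕ → N I) (hx : ∀ n, x n ∈ (colSub β : Subgroup (N I)))
    (n : ℕ) : shear β x hx (bas n β) = bas n β * x n := by
  have : Multiplicative.toAdd (shear β x hx (bas n β)) =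
      Multiplicative.toAdd (bas n β) + Multiplicative.toAdd (x n) := by
    rw [shear_apply]
    congr 1
    exact shearL_bas β x n
  exact this

end Ex

end Pool.Agent.MP_2f4f34_gt
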