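import Pool.Agent.Lib.MP_2f4f34_gt.Defs

/-!
# The `k_ω` group topology determined by an increasing sequence of compact sets
-/

set_option autoImplicit false

open Filter Topology Set Pointwise

namespace Pool.Agent.MP_2f4f34_gt

/-- Dependent choice along `ℕ`. -/
theorem dep_choice {α : Type} (Q : α → Prop) (P : ℕ → α → α → Prop) (a0 : α) (h0 : Q a0)
    (h : ∀ n a, Q a → ∃ b, Q b ∧ P n a b) :
    ∃ f : ℕ → α, f 0 = a0 ∧ (∀ n, Q (f n)) ∧ ∀ n, P n (f n) (f (n + 1)) := by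
  choose! g hg using h
  let F : ℕ → α := fun n => Nat.rec a0 (fun n a => g n a) n
  have hQ : ∀ n, Q (F n) := by
    intro n
    induction n with
    | zero => exact h0
    | succ n ih => exact (hg n (F n) ih).1
  exact ⟨F, rfl, hQ, fun n => (hg n (F n) (hQ n)).2⟩

section KO

variable {G : Type} [τ₀ : TopologicalSpace G]

/-- The topology determined by the subspaces `C n`: a set is open when its trace on every
`C n` is open in `C n`. -/
@[instance_reducible] def kOmega (C : ℕ → Set G) : TopologicalSpace G :=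
  ⨆ n, TopologicalSpace.coinduced (Subtype.val : C n → G) instTopologicalSpaceSubtype

theorem isOpen_kOmega_iff (C : ℕ → Set G) (O : Set G) :
    IsOpen[kOmega C] O ↔ ∀ n, ∃ W : Set G, IsOpen W ∧ W ∩ C n = O ∩ C n := by
  unfold kOmega
  rw [isOpen_iSup_iff]
  refine forall_congr' fun n => ?_
  rw [isOpen_coinduced, isOpen_induced_iff]
  refine exists_congr fun W => and_congr_right fun _ => ?_
  rw [Subtype.preimage_val_eq_preimage_val_iff, Set.inter_comm (C n) W, Set.inter_comm (C n) O]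

theorem kOmega_le (C : ℕ → Set G) : kOmega C ≤ τ₀ := by
  intro O hO
  rw [isOpen_kOmega_iff]
  exact fun n => ⟨O, hO, rfl⟩

theorem kOmega_continuous (C : ℕ → Set G) (h : G → G) (hc : Continuous h)
    (hm : ∀ n, ∃ m, ∀ x ∈ C n, h x ∈ C m) : @Continuous G G (kOmega C) (kOmega C) h := by
  rw [continuous_def]
  intro O hO
  rw [isOpen_kOmega_iff] at hO ⊢
  intro n
  obtain ⟨m, hm'⟩ := hm n
  obtain ⟨W, hW, hWO⟩ := hO m
  refine ⟨h ⁻¹' W, hW.preimage hc, ?_⟩
  ext x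
  constructor
  · rintro ⟨hx, hxn⟩
    have : h x ∈ W ∩ C m := ⟨hx, hm' x hxn⟩
    rw [hWO] at this
    exact ⟨this.1, hxn⟩
  · rintro ⟨hx, hxn⟩
    have : h x ∈ O ∩ C m := ⟨hx, hm' x hxn⟩
    rw [← hWO] at this
    exact ⟨this.1, hxn⟩

end KO

section KOG

variable {G : Type} [Group G] [TopologicalSpace G] [IsTopologicalGroup G] [T2Space G]

omit [T2Space G] in
theorem kOmega_mul_aux (C : ℕ → Set G) (hcomp : ∀ n, IsCompact (C n))
    (hmono : ∀ n, C n ⊆ C (n + 1)) (hmul : ∀ n, C n * C n ⊆ C (n + 1))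
    (h1 : (1 : G) ∈ C 0) (O : Set G) (hO : IsOpen[kOmega C] O) (hO1 : (1 : G) ∈ O) :
    ∃ P : Set G, IsOpen[kOmega C] P ∧ (1 : G) ∈ P ∧ P * P ⊆ O := by
  have hmono' : Monotone C := monotone_nat_of_le_succ hmono
  rw [isOpen_kOmega_iff] at hO
  -- build the sequence of compact sets
  let Qp : ℕ × Set G → Prop := fun p => IsCompact p.2 ∧ p.2 ⊆ C p.1 ∧ p.2 * p.2 ⊆ O
  let Pp : ℕ → ℕ × Set G → ℕ × Set G → Prop := fun _ p q =>
    q.1 = p.1 + 1 ∧ ∃ W : Set G, IsOpen W ∧ p.2 ⊆ W ∧ W ∩ C q.1 ⊆ q.2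
  obtain ⟨f, hf0, hfQ, hfP⟩ := dep_choice Qp Pp (0, {1})
    (by
      refine ⟨isCompact_singleton, ?_, ?_⟩
      · intro x hx
        rw [Set.mem_singleton_iff] at hx
        subst hx
        exact h1
      · simpa using hO1)
    (by
      rintro _ ⟨n, Q⟩ ⟨hQc, hQC, hQO⟩
      obtain ⟨W', hW', hWO'⟩ := hO (n + 2)
      have hQW : Q ×ˢ Q ⊆ (fun p : G × G => p.1 * p.2) ⁻¹' W' := by
        rintro ⟨x, y⟩ ⟨hx, hy⟩
        have h2 : x * y ∈ O ∩ C (n + 2) := by
          refine ⟨hQO (Set.mul_mem_mul hx hy), ?_⟩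
          exact hmono' (Nat.le_succ _) (hmul n (Set.mul_mem_mul (hQC hx) (hQC hy)))
        rw [← hWO'] at h2
        exact h2.1
      obtain ⟨u, v, hu, hv, hQu, hQv, huv⟩ :=
        generalized_tube_lemma hQc hQc (hW'.preimage continuous_mul) hQW
      have hA : IsOpen (u ∩ v) := hu.inter hv
      obtain ⟨W, hWo, hQW2, hWA⟩ := hQc.exists_isOpen_closure_subset
        (hA.mem_nhdsSet.2 (Set.subset_inter hQu hQv))
      refine ⟨(n + 1, closure W ∩ C (n + 1)), ⟨?_, ?_, ?_⟩, rfl, W, hWo, hQW2, ?_⟩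
      · exact (hcomp (n + 1)).inter_left isClosed_closure
      · exact Set.inter_subset_right
      · rintro _ ⟨x, ⟨hxW, hxC⟩, y, ⟨hyW, hyC⟩, rfl⟩
        have hx' := hWA hxW
        have hy' := hWA hyW
        have h3 : x * y ∈ W' := huv (⟨hx'.1, hy'.2⟩ : (x, y) ∈ u ×ˢ v)
        have h4 : x * y ∈ W' ∩ C (n + 2) := ⟨h3, hmul (n + 1) (Set.mul_mem_mul hxC hyC)⟩
        rw [hWO'] at h4
        exact h4.1
      · exact Set.inter_subset_inter_left _ subset_closure)
  have hidx : ∀ n, (f n).1 = n := by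
    intro n
    induction n with
    | zero => rw [hf0]
    | succ n ih => rw [(hfP n).1, ih]
  have hW : ∀ n, ∃ W : Set G, IsOpen W ∧ (f n).2 ⊆ W ∧ W ∩ C (n + 1) ⊆ (f (n + 1)).2 := by
    intro n
    obtain ⟨-, W, h2, h3, h4⟩ := hfP n
    rw [hidx] at h4
    exact ⟨W, h2, h3, h4⟩
  choose W hWo hW1 hW2 using hW
  have hQC : ∀ n, (f n).2 ⊆ C n := by
    intro n
    have := (hfQ n).2.1
    rwa [hidx] at this
  have hQmono : Monotone fun n => (f n).2 := by
    apply monotone_nat_of_le_succ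
    intro n x hx
    exact hW2 n ⟨hW1 n hx, hmono n (hQC n hx)⟩
  refine ⟨⋃ n, (f n).2, ?_, ?_, ?_⟩
  · rw [isOpen_kOmega_iff]
    intro m
    refine ⟨⋃ n ∈ Set.Ici m, W n, isOpen_biUnion fun n _ => hWo n, ?_⟩
    ext x
    constructor
    · rintro ⟨hx, hxm⟩
      obtain ⟨n, hn, hxn⟩ := Set.mem_iUnion₂.1 hx
      refine ⟨Set.mem_iUnion.2 ⟨n + 1, hW2 n ⟨hxn, ?_⟩⟩, hxm⟩
      exact hmono' (Nat.le_succ_of_le hn) hxm
    · rintro ⟨hx, hxm⟩
      obtain ⟨n, hn⟩ := Set.mem_iUnion.1 hx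
      refine ⟨Set.mem_iUnion₂.2 ⟨max n m, le_max_right n m, ?_⟩, hxm⟩
      exact hW1 _ (hQmono (le_max_left n m) hn)
  · refine Set.mem_iUnion.2 ⟨0, ?_⟩
    rw [hf0]
    exact Set.mem_singleton 1
  · rintro _ ⟨x, hx, y, hy, rfl⟩
    obtain ⟨n, hn⟩ := Set.mem_iUnion.1 hx
    obtain ⟨m, hm⟩ := Set.mem_iUnion.1 hy
    exact (hfQ (max n m)).2.2 (Set.mul_mem_mul (hQmono (le_max_left n m) hn)
      (hQmono (le_max_right n m) hm))

theorem kOmega_group (C : ℕ → Set G) (hcomp : ∀ n, IsCompact (C n))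
    (hmono : ∀ n, C n ⊆ C (n + 1)) (hmul : ∀ n, C n * C n ⊆ C (n + 1))
    (hinv : ∀ n, ∀ x ∈ C n, x⁻¹ ∈ C n) (hcov : ∀ x : G, ∃ n, x ∈ C n)
    (h1 : (1 : G) ∈ C 0) : @IsTopologicalGroup G (kOmega C) _ := by
  have hmono' : Monotone C := monotone_nat_of_le_succ hmono
  have hinvc : @Continuous G G (kOmega C) (kOmega C) (fun x => x⁻¹) :=
    kOmega_continuous C _ continuous_inv fun n => ⟨n, hinv n⟩
  have hleft : ∀ a : G, @Continuous G G (kOmega C) (kOmega C) (fun x => a * x) := by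
    intro a
    refine kOmega_continuous C _ (continuous_const_mul a) fun n => ?_
    obtain ⟨m, hm⟩ := hcov a
    refine ⟨max m n + 1, fun x hx => hmul (max m n) (Set.mul_mem_mul ?_ ?_)⟩
    · exact hmono' (le_max_left m n) hm
    · exact hmono' (le_max_right m n) hx
  have hright : ∀ a : G, @Continuous G G (kOmega C) (kOmega C) (fun x => x * a) := by
    intro a
    refine kOmega_continuous C _ (continuous_mul_const a) fun n => ?_
    obtain ⟨m, hm⟩ := hcov a
    refine ⟨max m n + 1, fun x hx => hmul (max m n) (Set.mul_mem_mul ?_ ?_)⟩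
    · exact hmono' (le_max_right m n) hx
    · exact hmono' (le_max_left m n) hm
  have haux := kOmega_mul_aux C hcomp hmono hmul h1
  clear hmul hinv hcov hmono hmono' hcomp
  let := kOmega C
  apply IsTopologicalGroup.of_nhds_one
  · intro s hs
    obtain ⟨O, hOs, hO, hO1⟩ := mem_nhds_iff.1 hs
    obtain ⟨P, hP, hP1, hPO⟩ := haux O hO hO1
    have : P ×ˢ P ∈ (𝓝 (1 : G)) ×ˢ 𝓝 (1 : G) :=
      Filter.prod_mem_prod (hP.mem_nhds hP1) (hP.mem_nhds hP1)
    refine Filter.mem_map.2 (Filter.mem_of_superset this ?_)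
    rintro ⟨x, y⟩ ⟨hx, hy⟩
    exact hOs (hPO (Set.mul_mem_mul hx hy))
  · have := hinvc.tendsto 1
    rwa [inv_one] at this
  · intro a
    apply le_antisymm
    · have h2 : Tendsto (fun x => a⁻¹ * x) (𝓝 a) (𝓝 1) := by
        have := (hleft a⁻¹).tendsto a
        rwa [inv_mul_cancel] at this
      intro s hs
      have h3 := h2 (Filter.mem_map.1 hs)
      refine Filter.mem_of_superset (Filter.mem_map.1 h3) ?_
      intro x hx
      simpa using hx
    · have := (hleft a).tendsto 1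
      rwa [mul_one] at this
  · intro a
    have h2 := ((hright a⁻¹).comp (hleft a)).tendsto 1
    have h3 : ((fun x => x * a⁻¹) ∘ fun x => a * x) 1 = 1 := by simp
    rw [h3] at h2
    exact h2

end KOG

end Pool.Agent.MP_2f4f34_gt
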