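import Pool.Agent.Lib.MP_2f4f34_gt.Coarse

/-!
# The lower bound: a countable non-discrete Frechet-Urysohn group has sequence-rank at least `𝔟`
-/

set_option autoImplicit false

open Filter Topology Set Pointwise

namespace Pool.Agent.MP_2f4f34_gt

/-- A family of fewer than `𝔟` functions is bounded. -/
theorem exists_dominating (B : Set (ℕ → ℕ)) (h : Cardinal.mk B < boundingNumber) :
    ∃ g : ℕ → ℕ, ∀ f ∈ B, ∀ᶠ n in atTop, f n ≤ g n := by
  by_contra hcon
  have : boundingNumber ≤ Cardinal.mk B := csInf_le' ⟨B, rfl, hcon⟩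
  exact absurd h (not_lt.2 this)

/-- There is an unbounded family of size `𝔟`. -/
theorem exists_unbounded : ∃ B : Set (ℕ → ℕ), Cardinal.mk B = boundingNumber ∧
    ¬ ∃ g : ℕ → ℕ, ∀ f ∈ B, ∀ᶠ n in atTop, f n ≤ g n := by
  have hne : {κ : Cardinal.{0} | ∃ B : Set (ℕ → ℕ), Cardinal.mk B = κ ∧
      ¬ ∃ g : ℕ → ℕ, ∀ f ∈ B, ∀ᶠ n in atTop, f n ≤ g n}.Nonempty := by
    refine ⟨_, Set.univ, rfl, ?_⟩
    rintro ⟨g, hg⟩
    obtain ⟨n, hn⟩ := (hg (fun n => g n + 1) (Set.mem_univ _)).exists
    exact absurd hn (by simp)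
  exact csInf_mem hne

section Dominate

variable {G : Type} [Group G] [τ₀ : TopologicalSpace G] [T2Space G]

/-- Fewer than `𝔟` null sequences in a countable group with a countable base at the identity are
almost contained in one compact set. -/
theorem exists_compact_absorbing (V : ℕ → Set G) (hV : Antitone V)
    (hB : (𝓝 (1 : G)).HasBasis (fun _ : ℕ => True) V) (idx : G → ℕ)
    (hidx : Function.Injective idx) (S : Set (ℕ → G)) (hS : Cardinal.mk S < boundingNumber)
    (hconv : ∀ u ∈ S, Tendsto u atTop (𝓝 1)) :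
    ∃ K : Set G, IsCompact K ∧ (1 : G) ∈ K ∧ ∀ u ∈ S, ∀ᶠ j in atTop, u j ∈ K := by
  have hf : ∀ u : S, ∀ n, ∃ b : ℕ, ∀ j, u.1 j ∉ V n → idx (u.1 j) < b := by
    intro u n
    have h1 : ∀ᶠ j in atTop, u.1 j ∈ V n :=
      (hconv u.1 u.2).eventually (hB.mem_of_mem trivial)
    obtain ⟨N, hN⟩ := Filter.eventually_atTop.1 h1
    refine ⟨(Finset.range N).sup (fun j => idx (u.1 j)) + 1, fun j hj => ?_⟩
    have hjN : j < N := by
      by_contra h
      exact hj (hN j (not_lt.1 h))
    exact Nat.lt_succ_of_le (Finset.le_sup (f := fun j => idx (u.1 j)) (Finset.mem_range.2 hjN))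
  choose b hb using hf
  obtain ⟨φ, hφ⟩ := exists_dominating (Set.range b)
    (lt_of_le_of_lt Cardinal.mk_range_le hS)
  have hbot : ∀ x : G, (∀ n, x ∈ V n) → x = 1 := by
    intro x hx
    by_contra hne
    have h1 : ({x}ᶜ : Set G) ∈ 𝓝 (1 : G) :=
      isOpen_compl_singleton.mem_nhds (fun h => hne (Set.mem_singleton_iff.1 h).symm)
    obtain ⟨n, -, hn⟩ := hB.mem_iff.1 h1
    exact hn (hx n) rfl
  let K : Set G := {x | x = 1 ∨ ∃ n, x ∈ V n ∧ x ∉ V (n + 1) ∧ idx x < φ (n + 1)}
  have hK1 : (1 : G) ∈ K := Or.inl rfl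
  have hKfin : ∀ m, {x | x ∈ K ∧ x ∉ V m}.Finite := by
    intro m
    have hsub : {x | x ∈ K ∧ x ∉ V m} ⊆ idx ⁻¹' Set.Iio ((Finset.range (m + 1)).sup φ) := by
      rintro x ⟨hxK, hxm⟩
      rcases hxK with rfl | ⟨n, hn1, hn2, hn3⟩
      · exact absurd (mem_of_mem_nhds (hB.mem_of_mem trivial)) hxm
      · have hnm : n < m := by
          by_contra h
          exact hxm (hV (not_lt.1 h) hn1)
        exact lt_of_lt_of_le hn3
          (Finset.le_sup (f := φ) (Finset.mem_range.2 (Nat.succ_lt_succ hnm)))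
    exact ((Set.finite_Iio _).preimage hidx.injOn).subset hsub
  refine ⟨K, ?_, hK1, ?_⟩
  · have h1 : Tendsto (Subtype.val : K → G) cofinite (𝓝 1) := by
      rw [hB.tendsto_right_iff]
      intro m _
      rw [Filter.eventually_cofinite]
      have h2 : ((Subtype.val : K → G) '' {x | ¬ (x : G) ∈ V m}).Finite := by
        refine (hKfin m).subset ?_
        rintro _ ⟨x, hx, rfl⟩
        exact ⟨x.2, hx⟩
      exact Set.Finite.of_finite_image h2 Subtype.val_injective.injOn
    have h2 := h1.isCompact_insert_range_of_cofinite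
    rw [Subtype.range_coe, Set.insert_eq_of_mem hK1] at h2
    exact h2
  · intro u hu
    have h1 := hφ (b ⟨u, hu⟩) ⟨_, rfl⟩
    obtain ⟨N, hN⟩ := Filter.eventually_atTop.1 h1
    have h2 : ∀ᶠ j in atTop, u j ∈ V N :=
      (hconv u hu).eventually (hB.mem_of_mem trivial)
    filter_upwards [h2] with j hj
    by_cases hu1 : u j = 1
    · exact Or.inl hu1
    · have h3 : ∃ n, u j ∉ V n := by
        by_contra h
        apply hu1
        apply hbot
        intro n
        by_contra hn
        exact h ⟨n, hn⟩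
      classical
      let n := Nat.find h3
      have hn : u j ∉ V n := Nat.find_spec h3
      have hNn : N < n := by
        by_contra h
        exact hn (hV (not_lt.1 h) hj)
      obtain ⟨k, hk⟩ : ∃ k, n = k + 1 := ⟨n - 1, by omega⟩
      refine Or.inr ⟨k, ?_, ?_, ?_⟩
      · by_contra h
        exact Nat.find_min h3 (show k < n by omega) h
      · rwa [← hk]
      · rw [← hk]
        refine lt_of_lt_of_le (hb ⟨u, hu⟩ n j hn) ?_
        exact hN n hNn.le

end Dominate

section Cseq

variable {G : Type} [Group G]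

/-- The compact sets generated by `K` and an enumeration of the group. -/
def cseq (K : Set G) (g : ℕ → G) : ℕ → Set G
  | 0 => K ∪ K⁻¹
  | n + 1 => (cseq K g n ∪ {g n, (g n)⁻¹}) * (cseq K g n ∪ {g n, (g n)⁻¹})

theorem cseq_one (K : Set G) (g : ℕ → G) (h1 : (1 : G) ∈ K) (n : ℕ) : (1 : G) ∈ cseq K g n := by
  induction n with
  | zero => exact Or.inl h1
  | succ n ih => exact ⟨1, Or.inl ih, 1, Or.inl ih, mul_one 1⟩

theorem cseq_inv (K : Set G) (g : ℕ → G) (n : ℕ) : ∀ x ∈ cseq K g n, x⁻¹ ∈ cseq K g n := by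
  induction n with
  | zero =>
    rintro x (hx | hx)
    · exact Or.inr (by simpa using hx)
    · exact Or.inl hx
  | succ n ih =>
    have h : ∀ x ∈ cseq K g n ∪ {g n, (g n)⁻¹}, x⁻¹ ∈ cseq K g n ∪ {g n, (g n)⁻¹} := by
      rintro x (hx | hx)
      · exact Or.inl (ih x hx)
      · rcases hx with rfl | hx
        · exact Or.inr (Or.inr rfl)
        · rw [Set.mem_singleton_iff] at hx
          subst hx
          exact Or.inr (Or.inl (inv_inv _))
    rintro _ ⟨x, hx, y, hy, rfl⟩
    exact ⟨y⁻¹, h y hy, x⁻¹, h x hx, (mul_inv_rev x y).symm⟩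

theorem cseq_mul (K : Set G) (g : ℕ → G) (n : ℕ) :
    cseq K g n * cseq K g n ⊆ cseq K g (n + 1) :=
  Set.mul_subset_mul Set.subset_union_left Set.subset_union_left

theorem cseq_mono (K : Set G) (g : ℕ → G) (h1 : (1 : G) ∈ K) (n : ℕ) :
    cseq K g n ⊆ cseq K g (n + 1) := by
  intro x hx
  exact cseq_mul K g n ⟨x, hx, 1, cseq_one K g h1 n, mul_one x⟩

theorem cseq_cov (K : Set G) (g : ℕ → G) (hg : Function.Surjective g) (h1 : (1 : G) ∈ K)
    (x : G) : ∃ n, x ∈ cseq K g n := by
  obtain ⟨n, rfl⟩ := hg x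
  exact ⟨n + 1, g n, Or.inr (Or.inl rfl), 1, Or.inl (cseq_one K g h1 n), mul_one _⟩

theorem cseq_compact [TopologicalSpace G] [IsTopologicalGroup G] (K : Set G) (g : ℕ → G)
    (hK : IsCompact K) (n : ℕ) : IsCompact (cseq K g n) := by
  induction n with
  | zero => exact hK.union hK.inv
  | succ n ih =>
    have h : IsCompact (cseq K g n ∪ {g n, (g n)⁻¹}) :=
      ih.union (Set.toFinite _).isCompact
    exact h.mul h

end Cseq

section Isolated

/-- A nonempty countable compact subset of a Hausdorff space has a relatively isolated point. -/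
theorem exists_isolated {X : Type} [TopologicalSpace X] [T2Space X] (D : Set X)
    (hD : IsCompact D) (hne : D.Nonempty) (hcount : D.Countable) :
    ∃ d ∈ D, ∃ W : Set X, IsOpen W ∧ W ∩ D = {d} := by
  have : CompactSpace D := isCompact_iff_compactSpace.1 hD
  have : Nonempty D := hne.to_subtype
  have : Countable D := hcount.to_subtype
  obtain ⟨d, hd⟩ := nonempty_interior_of_iUnion_of_closed (X := D) (f := fun d : D => {d})
    (fun d => isClosed_singleton) (by ext x; simp)
  have hopen : IsOpen ({d} : Set D) := by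
    have : interior ({d} : Set D) = {d} := by
      obtain ⟨y, hy⟩ := hd
      have hyd : y = d := Set.mem_singleton_iff.1 (interior_subset hy)
      subst hyd
      refine Set.Subset.antisymm interior_subset ?_
      intro z hz
      rw [Set.mem_singleton_iff] at hz
      rw [hz]
      exact hy
    rw [← this]
    exact isOpen_interior
  obtain ⟨W, hW, hWd⟩ := isOpen_induced_iff.1 hopen
  refine ⟨d, d.2, W, hW, ?_⟩
  ext x
  constructor
  · rintro ⟨hxW, hxD⟩
    have : (⟨x, hxD⟩ : D) ∈ (Subtype.val : D → X) ⁻¹' W := hxW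
    rw [hWd] at this
    exact congrArg Subtype.val this
  · rintro rfl
    have : d ∈ (Subtype.val : D → X) ⁻¹' W := by
      rw [hWd]
      rfl
    exact ⟨this, d.2⟩

end Isolated

section Frechet

/-- In a non-discrete Frechet-Urysohn group, if no null sequence escapes the sets `C n`, then
one of them is a neighbourhood of the identity. -/
theorem exists_nhds_of_frechet {G : Type} [Group G] [TopologicalSpace G] [IsTopologicalGroup G]
    [T2Space G] [FrechetUrysohnSpace G] (hnd : ¬ DiscreteTopology G) (C : ℕ → Set G)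
    (hkey : ∀ (z : ℕ → G) (m : ℕ → ℕ), Tendsto z atTop (𝓝 1) → Tendsto m atTop atTop →
      ∃ j, z j ∈ C (m j)) : ∃ n, C n ∈ 𝓝 (1 : G) := by
  by_contra hcon
  have hC : ∀ n, C n ∉ 𝓝 (1 : G) := fun n hn => hcon ⟨n, hn⟩
  -- a nontrivial null sequence
  have hcl : (1 : G) ∈ closure ({1}ᶜ : Set G) := by
    rw [mem_closure_iff_nhds]
    intro t ht
    by_contra hemp
    apply hnd
    rw [discreteTopology_iff_isOpen_singleton_one]
    have hsub : t ⊆ {1} := by
      intro x hx
      by_contra hx1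
      exact hemp ⟨x, hx, hx1⟩
    have h1 : ({1} : Set G) ∈ 𝓝 (1 : G) := Filter.mem_of_superset ht hsub
    rw [isOpen_iff_mem_nhds]
    intro a ha
    rw [Set.mem_singleton_iff] at ha
    subst ha
    exact h1
  obtain ⟨x, hx1, hx⟩ := mem_closure_iff_seq_limit.1 hcl
  -- separate each `x n` from the identity
  have hsep : ∀ n, ∃ O B : Set G, O ∈ 𝓝 (1 : G) ∧ B ∈ 𝓝 (1 : G) ∧ ∀ z ∈ O, x n * z ∉ B := by
    intro n
    obtain ⟨A, B, hA, hB, hxA, h1B, hAB⟩ := t2_separation (hx1 n)
    refine ⟨(fun z => x n * z) ⁻¹' A, B, ?_, hB.mem_nhds h1B, ?_⟩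
    · apply (hA.preimage (continuous_const_mul (x n))).mem_nhds
      simpa using hxA
    · intro z hz hzB
      exact Set.disjoint_left.1 hAB hz hzB
  choose O B hO hB hOB using hsep
  let M : Set G := {y | ∃ n z, z ∈ O n ∧ z ∉ C n ∧ y = x n * z}
  have hM : (1 : G) ∈ closure M := by
    rw [mem_closure_iff_nhds]
    intro t ht
    obtain ⟨n, hn⟩ := (hx.eventually (eventually_mem_nhds_iff.2 ht)).exists
    have h2 : (fun z => x n * z) ⁻¹' t ∈ 𝓝 (1 : G) := by
      have := (continuous_const_mul (x n)).tendsto (1 : G)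
      rw [mul_one] at this
      exact this hn
    have h3 : (fun z => x n * z) ⁻¹' t ∩ O n ∈ 𝓝 (1 : G) := Filter.inter_mem h2 (hO n)
    have h4 : ¬ ((fun z => x n * z) ⁻¹' t ∩ O n ⊆ C n) := fun h =>
      hC n (Filter.mem_of_superset h3 h)
    obtain ⟨z, ⟨hz1, hz2⟩, hz3⟩ := Set.not_subset.1 h4
    exact ⟨x n * z, hz1, n, z, hz2, hz3, rfl⟩
  obtain ⟨y, hyM, hy⟩ := mem_closure_iff_seq_limit.1 hM
  choose m z hzO hzC hyz using hyM
  have hm : Tendsto m atTop atTop := by
    rw [Filter.tendsto_atTop]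
    intro b
    have h1 : ∀ᶠ j in atTop, ∀ i ∈ Set.Iio b, m j ≠ i := by
      rw [Filter.eventually_all_finite (Set.finite_Iio b)]
      intro i _
      filter_upwards [hy.eventually (hB i)] with j hj hmi
      subst hmi
      rw [hyz j] at hj
      exact hOB _ _ (hzO j) hj
    filter_upwards [h1] with j hj
    by_contra hlt
    exact hj (m j) (not_le.1 hlt) rfl
  have hz : Tendsto z atTop (𝓝 1) := by
    have h1 : Tendsto (fun j => (x (m j))⁻¹ * y j) atTop (𝓝 ((1 : G)⁻¹ * 1)) :=
      ((hx.comp hm).inv).mul hy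
    rw [inv_one, mul_one] at h1
    refine h1.congr fun j => ?_
    rw [hyz j, inv_mul_cancel_left]
  obtain ⟨j, hj⟩ := hkey z m hz hm
  exact hzC j hj

end Frechet

/-- The lower bound. -/
theorem bounding_le_of_generates (G : Type) [Group G] [Countable G] (τ : TopologicalSpace G)
    (hgrp : @IsTopologicalGroup G τ _) (ht2 : @T2Space G τ) (hfu : @FrechetUrysohnSpace G τ)
    (hnd : ¬ @DiscreteTopology G τ) (S : Set (ℕ → G)) (hgen : Generates G S τ) :
    boundingNumber ≤ Cardinal.mk S := by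
  by_contra hlt
  rw [not_le] at hlt
  obtain ⟨⟨-, -, hconv⟩, hfinest⟩ := hgen
  obtain ⟨τ₀, V, hg0, ht0, hle0, hanti, hB⟩ := @exists_coarse G _ τ hgrp ht2 _
  obtain ⟨idx, hidx⟩ := exists_injective_nat G
  obtain ⟨g, hg⟩ := exists_surjective_nat G
  have hconv0 : ∀ u ∈ S, Tendsto u atTop (@nhds G τ₀ 1) := fun u hu =>
    (hconv u hu).mono_right (nhds_mono hle0)
  obtain ⟨K, hK, hK1, hKu⟩ := exists_compact_absorbing V hanti hB idx hidx S hlt hconv0
  have hC1 : ∀ n, (1 : G) ∈ cseq K g n := cseq_one K g hK1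
  have hCc : ∀ n, IsCompact (cseq K g n) := cseq_compact K g hK
  have hCm := cseq_mono K g hK1
  have hCmono : Monotone (cseq K g) := monotone_nat_of_le_succ hCm
  have hω : Admissible G S (kOmega (cseq K g)) := by
    refine ⟨kOmega_group _ hCc hCm (cseq_mul K g) (cseq_inv K g) (cseq_cov K g hg hK1)
      (hC1 0), t2Space_antitone (kOmega_le _) ht0, ?_⟩
    intro u hu O hO
    obtain ⟨O', hO'O, hO', h1O'⟩ : ∃ O' ⊆ O, IsOpen[kOmega (cseq K g)] O' ∧ (1 : G) ∈ O' := by
      let := kOmega (cseq K g)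
      exact mem_nhds_iff.1 hO
    obtain ⟨W, hW, hWO⟩ := (isOpen_kOmega_iff _ _).1 hO' 0
    have h1W : (1 : G) ∈ W := by
      have : (1 : G) ∈ O' ∩ cseq K g 0 := ⟨h1O', hC1 0⟩
      rw [← hWO] at this
      exact this.1
    have h1 : ∀ᶠ j in atTop, u j ∈ W := (hconv0 u hu).eventually (hW.mem_nhds h1W)
    have h2 : ∀ᶠ j in atTop, u j ∈ O := by
      filter_upwards [h1, hKu u hu] with j hj1 hj2
      have : u j ∈ W ∩ cseq K g 0 := ⟨hj1, Or.inl hj2⟩
      rw [hWO] at this
      exact hO'O this.1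
    exact h2
  have hleω : τ ≤ kOmega (cseq K g) := hfinest _ hω
  -- no null sequence escapes the compact sets
  have hkey : ∀ (z : ℕ → G) (m : ℕ → ℕ), Tendsto z atTop (@nhds G τ 1) →
      Tendsto m atTop atTop → ∃ j, z j ∈ cseq K g (m j) := by
    intro z m hz hm
    by_contra hcon
    have hzC : ∀ j, z j ∉ cseq K g (m j) := fun j hj => hcon ⟨j, hj⟩
    have hfin : ∀ n, (Set.range z ∩ cseq K g n).Finite := by
      intro n
      obtain ⟨N, hN⟩ := Filter.eventually_atTop.1 (hm.eventually (eventually_ge_atTop n))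
      refine ((Set.finite_Iio N).image z).subset ?_
      rintro _ ⟨⟨j, rfl⟩, hj⟩
      refine ⟨j, ?_, rfl⟩
      by_contra hjN
      exact hzC j (hCmono (hN j (not_lt.1 hjN)) hj)
    have hopen : IsOpen[kOmega (cseq K g)] (Set.range z)ᶜ := by
      rw [isOpen_kOmega_iff]
      intro n
      refine ⟨(Set.range z ∩ cseq K g n)ᶜ, (hfin n).isClosed.isOpen_compl, ?_⟩
      ext x
      constructor
      · rintro ⟨h1, h2⟩
        exact ⟨fun h => h1 ⟨h, h2⟩, h2⟩
      · rintro ⟨h1, h2⟩
        exact ⟨fun h => h1 h.1, h2⟩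
    have h1 : (1 : G) ∈ (Set.range z)ᶜ := by
      rintro ⟨j, hj⟩
      apply hzC j
      rw [hj]
      exact hC1 _
    have h3 : (Set.range z)ᶜ ∈ @nhds G (kOmega (cseq K g)) 1 := by
      let := kOmega (cseq K g)
      exact hopen.mem_nhds h1
    have h2 : (Set.range z)ᶜ ∈ @nhds G τ 1 := nhds_mono hleω h3
    obtain ⟨j, hj⟩ := (hz.eventually h2).exists
    exact hj ⟨j, rfl⟩
  obtain ⟨n, hn⟩ := @exists_nhds_of_frechet G _ τ hgrp ht2 hfu hnd (cseq K g) hkey
  -- now the group is discrete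
  let I : Set G := @interior G τ (cseq K g n)
  have hIopen : IsOpen[τ] I := @isOpen_interior G τ _
  have hI1 : (1 : G) ∈ I := (@mem_interior_iff_mem_nhds G τ _ _).2 hn
  have hIC : I ⊆ cseq K g n := @interior_subset G τ _
  have hDC : closure I ⊆ cseq K g n := closure_minimal hIC (hCc n).isClosed
  have hD : IsCompact (closure I) := (hCc n).of_isClosed_subset isClosed_closure hDC
  obtain ⟨d, hdD, W, hW, hWD⟩ := exists_isolated (closure I) hD ⟨1, subset_closure hI1⟩
    (Set.to_countable _)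
  have hdW : d ∈ W := by
    have : d ∈ W ∩ closure I := by
      rw [hWD]
      rfl
    exact this.1
  obtain ⟨y, hyW, hyI⟩ := mem_closure_iff.1 hdD W hW hdW
  have hyd : y = d := by
    have : y ∈ W ∩ closure I := ⟨hyW, subset_closure hyI⟩
    rw [hWD] at this
    exact this
  subst hyd
  have hsing : ({y} : Set G) = W ∩ I := by
    ext x
    constructor
    · intro hx
      rw [Set.mem_singleton_iff] at hx
      subst hx
      exact ⟨hyW, hyI⟩
    · rintro ⟨h1, h2⟩
      have : x ∈ W ∩ closure I := ⟨h1, subset_closure h2⟩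
      rw [hWD] at this
      exact this
  have hopen : IsOpen[τ] ({y} : Set G) := by
    rw [hsing]
    exact @IsOpen.inter G τ _ _ (hle0 W hW) hIopen
  apply hnd
  clear hn hkey hleω hω hconv hconv0 hfinest hIopen hI1 hIC hDC hD hsing hWD hdD hyI hyW hdW
  let := τ
  have : IsTopologicalGroup G := hgrp
  rw [discreteTopology_iff_isOpen_singleton_one]
  have h5 : ({1} : Set G) = (fun x => y * x) ⁻¹' {y} := by
    ext x
    simp
  rw [h5]
  exact hopen.preimage (continuous_const_mul y)

end Pool.Agent.MP_2f4f34_gt
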