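import Pool.Agent.Lib.MP_2f4f34_gt.Defs

/-!
# Group topologies on a semidirect product given by a decreasing sequence of subgroups of the kernel
-/

set_option autoImplicit false

open Filter Topology Set Pointwise

namespace Pool.Agent.MP_2f4f34_gt

section Semi

variable {N Γ : Type} [CommGroup N] [Group Γ] (φ : Γ →* MulAut N)

/-- The subgroup `W` of `N` seen inside the semidirect product. -/
def inSemi (W : Subgroup N) : Set (N ⋊[φ] Γ) := {g | g.right = 1 ∧ g.left ∈ W}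

/-- The filter basis at the identity of `N ⋊ Γ` given by a decreasing sequence of subgroups. -/
@[reducible] def semiBasis (W : ℕ → Subgroup N) (hanti : Antitone W)
    (hinv : ∀ (γ : Γ) (j : ℕ), ∃ j' : ℕ, ∀ n ∈ W j', φ γ n ∈ W j) :
    GroupFilterBasis (N ⋊[φ] Γ) where
  sets := Set.range fun j => inSemi φ (W j)
  nonempty := ⟨_, 0, rfl⟩
  inter_sets := by
    rintro _ _ ⟨i, rfl⟩ ⟨j, rfl⟩
    refine ⟨_, ⟨max i j, rfl⟩, ?_⟩
    rintro g ⟨h1, h2⟩
    exact ⟨⟨h1, hanti (le_max_left i j) h2⟩, ⟨h1, hanti (le_max_right i j) h2⟩⟩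
  one' := by
    rintro _ ⟨j, rfl⟩
    exact ⟨rfl, (W j).one_mem⟩
  mul' := by
    rintro _ ⟨j, rfl⟩
    refine ⟨_, ⟨j, rfl⟩, ?_⟩
    rintro _ ⟨a, ⟨ha1, ha2⟩, b, ⟨hb1, hb2⟩, rfl⟩
    refine ⟨by simp [ha1, hb1], ?_⟩
    have : (a * b).left = a.left * b.left := by simp [ha1]
    show (a * b).left ∈ W j
    rw [this]
    exact (W j).mul_mem ha2 hb2
  inv' := by
    rintro _ ⟨j, rfl⟩
    refine ⟨_, ⟨j, rfl⟩, ?_⟩
    rintro a ⟨ha1, ha2⟩
    refine ⟨by simp [ha1], ?_⟩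
    have : (a⁻¹).left = a.left⁻¹ := by simp [ha1]
    show (a⁻¹).left ∈ W j
    rw [this]
    exact (W j).inv_mem ha2
  conj' := by
    rintro x _ ⟨j, rfl⟩
    obtain ⟨j', hj'⟩ := hinv x.right j
    refine ⟨_, ⟨j', rfl⟩, ?_⟩
    rintro a ⟨ha1, ha2⟩
    refine ⟨by simp [ha1], ?_⟩
    have : (x * a * x⁻¹).left = φ x.right a.left := by
      simp [ha1, mul_comm, ← mul_assoc]
    show (x * a * x⁻¹).left ∈ W j
    rw [this]
    exact hj' _ ha2

variable (W : ℕ → Subgroup N) (hanti : Antitone W)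
  (hinv : ∀ (γ : Γ) (j : ℕ), ∃ j' : ℕ, ∀ n ∈ W j', φ γ n ∈ W j)

theorem semi_hasBasis :
    (@nhds _ (semiBasis φ W hanti hinv).topology (1 : N ⋊[φ] Γ)).HasBasis (fun _ : ℕ => True)
      fun j => inSemi φ (W j) := by
  have h := (semiBasis φ W hanti hinv).nhds_one_hasBasis
  constructor
  intro t
  rw [h.mem_iff]
  constructor
  · rintro ⟨_, ⟨j, rfl⟩, hj⟩
    exact ⟨j, trivial, hj⟩
  · rintro ⟨j, -, hj⟩
    exact ⟨_, ⟨j, rfl⟩, hj⟩

theorem semi_t2 (hbot : ∀ n : N, (∀ j, n ∈ W j) → n = 1) :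
    @T2Space _ (semiBasis φ W hanti hinv).topology := by
  letI := (semiBasis φ W hanti hinv).topology
  rw [GroupFilterBasis.t2Space_iff_sInter_subset (semiBasis φ W hanti hinv) rfl]
  intro g hg
  have h0 : ∀ j, g ∈ inSemi φ (W j) := fun j => hg _ ⟨j, rfl⟩
  have h1 : g.right = 1 := (h0 0).1
  have h2 : g.left = 1 := hbot _ fun j => (h0 j).2
  exact SemidirectProduct.ext h2 h1

theorem semi_tendsto_iff (u : ℕ → N ⋊[φ] Γ) :
    Tendsto u atTop (@nhds _ (semiBasis φ W hanti hinv).topology 1) ↔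
      ∀ j, ∀ᶠ n in atTop, u n ∈ inSemi φ (W j) := by
  rw [(semi_hasBasis φ W hanti hinv).tendsto_right_iff]
  simp

theorem semi_firstCountable :
    @FirstCountableTopology _ (semiBasis φ W hanti hinv).topology := by
  letI := (semiBasis φ W hanti hinv).topology
  haveI : IsTopologicalGroup (N ⋊[φ] Γ) := (semiBasis φ W hanti hinv).isTopologicalGroup
  haveI : (𝓝 (1 : N ⋊[φ] Γ)).IsCountablyGenerated :=
    (semi_hasBasis φ W hanti hinv).isCountablyGenerated
  constructor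
  intro a
  rw [← map_mul_left_nhds_one a]
  infer_instance

end Semi

end Pool.Agent.MP_2f4f34_gt
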