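import Pool.Agent.Lib.MP_2f4f34_gt.Lower

/-!
# The upper bound: a countable metrizable group has sequence-rank at most `𝔟`
-/

set_option autoImplicit false

open Filter Topology Set Pointwise

namespace Pool.Agent.MP_2f4f34_gt

/-- A countable first countable Hausdorff group has a generating set of at most `𝔟` sequences. -/
theorem exists_generates_le_bounding (G : Type) [Group G] [Countable G] [τ : TopologicalSpace G]
    [hgrp : IsTopologicalGroup G] [T2Space G] [FirstCountableTopology G] :
    ∃ S : Set (ℕ → G), Cardinal.mk S ≤ boundingNumber ∧ Generates G S τ := by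
  obtain ⟨g, hg⟩ := exists_surjective_nat G
  obtain ⟨U, hU⟩ := (𝓝 (1 : G)).exists_antitone_basis
  obtain ⟨B, hB, hBunb⟩ := exists_unbounded
  have hbot : ∀ x : G, (∀ N, ∃ n, N ≤ n ∧ x ∈ U n) → x = 1 := by
    intro x hx
    by_contra hne
    have h1 : ({x}ᶜ : Set G) ∈ 𝓝 (1 : G) :=
      isOpen_compl_singleton.mem_nhds (fun h => hne (Set.mem_singleton_iff.1 h).symm)
    obtain ⟨N, -, hN⟩ := hU.1.mem_iff.1 h1
    obtain ⟨n, hn, hxn⟩ := hx N
    exact hN (hU.2 hn hxn) rfl
  classical
  let useq : (ℕ → ℕ) → ℕ → G := fun f k => if ∃ n, g k ∈ U n ∧ k < f n then g k else 1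
  have hnull : ∀ f, Tendsto (useq f) atTop (𝓝 1) := by
    intro f
    rw [hU.1.tendsto_right_iff]
    intro m _
    filter_upwards [eventually_ge_atTop ((Finset.range m).sup f)] with k hk
    by_cases h : ∃ n, g k ∈ U n ∧ k < f n
    · obtain ⟨n, hn1, hn2⟩ := h
      have hmn : m ≤ n := by
        by_contra hlt
        have : f n ≤ (Finset.range m).sup f :=
          Finset.le_sup (f := f) (Finset.mem_range.2 (not_le.1 hlt))
        omega
      have : useq f k = g k := if_pos ⟨n, hn1, hn2⟩
      rw [this]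
      exact hU.2 hmn hn1
    · have : useq f k = 1 := if_neg h
      rw [this]
      exact mem_of_mem_nhds (hU.1.mem_of_mem trivial)
  refine ⟨useq '' B, ?_, ⟨inferInstance, inferInstance, ?_⟩, ?_⟩
  · rw [← hB]
    exact Cardinal.mk_image_le
  · rintro _ ⟨f, -, rfl⟩
    exact hnull f
  · rintro t' ⟨hg', -, hs⟩
    apply le_of_nhds_one_le τ t' hgrp hg'
    intro O hO
    by_contra hcon
    have h1 : ∀ n, ∃ k, g k ∈ U n ∧ g k ∉ O := by
      intro n
      by_contra h
      apply hcon
      refine Filter.mem_of_superset (hU.1.mem_of_mem (i := n) trivial) ?_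
      intro x hx
      by_contra hxO
      obtain ⟨k, rfl⟩ := hg x
      exact h ⟨k, hx, hxO⟩
    choose k hk hkO using h1
    have h2 : ∃ f ∈ B, ∃ᶠ n in atTop, k n < f n := by
      by_contra h
      apply hBunb
      refine ⟨k, fun f hf => ?_⟩
      by_contra hf'
      apply h
      refine ⟨f, hf, ?_⟩
      intro h3
      exact hf' (h3.mono fun n hn => not_lt.1 hn)
    obtain ⟨f, hf, hfr⟩ := h2
    have h3 : ∀ᶠ j in atTop, useq f j ∈ O := (hs _ ⟨f, hf, rfl⟩).eventually hO
    obtain ⟨M, hM⟩ := Filter.eventually_atTop.1 h3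
    -- infinitely many `n` with `k n < f n`; all of them have `k n < M`
    have h4 : ∀ n, k n < f n → k n < M := by
      intro n hn
      by_contra hMn
      have h5 := hM (k n) (not_lt.1 hMn)
      have h6 : useq f (k n) = g (k n) := if_pos ⟨n, hk n, hn⟩
      rw [h6] at h5
      exact hkO n h5
    -- pigeonhole
    have h7 : ∃ j ∈ Set.Iio M, ∃ᶠ n in atTop, k n = j := by
      by_contra h
      have h8 : ∀ j ∈ Set.Iio M, ∀ᶠ n in atTop, k n ≠ j := by
        intro j hj
        by_contra h9
        exact h ⟨j, hj, fun h10 => h9 h10⟩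
      rw [← Filter.eventually_all_finite (Set.finite_Iio M)] at h8
      obtain ⟨n, hn1, hn2⟩ := (hfr.and_eventually h8).exists
      exact hn2 (k n) (h4 n hn1) rfl
    obtain ⟨j, -, hj⟩ := h7
    have h8 : g j = 1 := by
      apply hbot
      intro N
      obtain ⟨n, hn1, hn2⟩ := (hj.and_eventually (eventually_ge_atTop N)).exists
      refine ⟨n, hn2, ?_⟩
      rw [← hn1]
      exact hk n
    obtain ⟨n, hn⟩ := hj.exists
    apply hkO n
    rw [hn, h8]
    let := t'
    exact mem_of_mem_nhds hO

/-- The topology of a sequential Hausdorff group is generated by all its null sequences. -/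
theorem generates_null_sequences (G : Type) [Group G] [τ : TopologicalSpace G]
    [IsTopologicalGroup G] [T2Space G] [SequentialSpace G] :
    Generates G {u | Tendsto u atTop (𝓝 1)} τ := by
  have key : ∀ O : Set G, (∀ (x : ℕ → G) (p : G), (∀ n, x n ∈ Oᶜ) →
      Tendsto (fun n => p⁻¹ * x n) atTop (𝓝 1) → p ∉ O) → IsOpen O := by
    intro O hO
    rw [← isClosed_compl_iff]
    apply IsSeqClosed.isClosed
    intro x p hx hxp
    apply hO x p hx
    have := hxp.const_mul p⁻¹
    rwa [inv_mul_cancel] at this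
  refine ⟨⟨inferInstance, inferInstance, fun u hu => hu⟩, ?_⟩
  rintro t' ⟨hg', -, hs⟩
  rw [TopologicalSpace.le_def]
  intro O hO
  apply key
  intro x p hx h1 hpO
  have h2 := hs _ h1
  let := t'
  have : IsTopologicalGroup G := hg'
  have h3 : Tendsto (fun n => p * (p⁻¹ * x n)) atTop (𝓝 (p * 1)) := h2.const_mul p
  have h4 : (fun n => p * (p⁻¹ * x n)) = x := by
    ext n
    exact mul_inv_cancel_left p (x n)
  rw [h4, mul_one] at h3
  obtain ⟨n, hn⟩ := (h3.eventually (hO.mem_nhds hpO)).exists
  exact hx n hn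

/-- The bounding number is uncountable. -/
theorem aleph_one_le_bounding : Cardinal.aleph 1 ≤ boundingNumber := by
  obtain ⟨B, hB, hunb⟩ := exists_unbounded
  rw [← hB, Cardinal.aleph_one_le_iff]
  by_contra hle
  rw [not_lt, Cardinal.mk_le_aleph0_iff, Set.countable_coe_iff] at hle
  apply hunb
  rcases B.eq_empty_or_nonempty with h | h
  · exact ⟨fun _ => 0, fun f hf => by simp [h] at hf⟩
  · obtain ⟨F, hF⟩ := hle.exists_eq_range h
    refine ⟨fun n => (Finset.range (n + 1)).sup fun i => F i n, fun f hf => ?_⟩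
    rw [hF] at hf
    obtain ⟨i, rfl⟩ := hf
    filter_upwards [eventually_ge_atTop i] with n hn
    exact Finset.le_sup (f := fun i => F i n) (Finset.mem_range.2 (Nat.lt_succ_of_le hn))

/-- A discrete group has sequence-rank `0`. -/
theorem seqRank_discrete (G : Type) [Group G] [τ : TopologicalSpace G] [IsTopologicalGroup G]
    (h : DiscreteTopology G) : seqRank G τ = 0 := by
  have h1 : Generates G (∅ : Set (ℕ → G)) τ := by
    refine ⟨⟨inferInstance, inferInstance, fun u hu => absurd hu (Set.notMem_empty u)⟩, ?_⟩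
    intro t' _
    rw [h.eq_bot]
    exact bot_le
  have h2 : seqRank G τ ≤ Cardinal.mk (∅ : Set (ℕ → G)) := csInf_le' ⟨_, rfl, h1⟩
  rw [Cardinal.mk_eq_zero] at h2
  exact le_antisymm h2 (Cardinal.zero_le _)

end Pool.Agent.MP_2f4f34_gt
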