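import Pool.Agent.Lib.MP_2f4f34_gt.Example

/-!
# A metrizable group with sequence-rank `ω₁`, in ZFC
-/

set_option autoImplicit false

open Filter Topology Set Pointwise

namespace Pool.Agent.MP_2f4f34_gt.ZFCExample

open Pool.Agent.MP_2f4f34_gt

section

variable {I : Type} [LinearOrder I]

/-- The family of all columns. -/
noncomputable def colSeq (β : I) (n : ℕ) : Gp I := SemidirectProduct.inl (bas n β)

theorem inSemi_inl {W : Subgroup (N I)} {x : N I} (hx : x ∈ W) :
    (SemidirectProduct.inl x : Gp I) ∈ inSemi (Gam I).subtype W := ⟨rfl, hx⟩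

theorem generates_columns
    (hI : ∀ C : Set I, C.Countable → ∃ β : I, ∀ i ∈ C, i < β) :
    Generates (Gp I) (Set.range (colSeq : I → ℕ → Gp I)) (tau I) := by
  refine ⟨⟨tau_group, tau_t2, ?_⟩, ?_⟩
  · rintro _ ⟨β, rfl⟩
    rw [semi_tendsto_iff]
    intro j
    filter_upwards [eventually_ge_atTop j] with n hn
    exact inSemi_inl (levelSub_anti hn (bas_level n β))
  · rintro t' ⟨hg, -, hs⟩
    rw [@TopologicalSpace.le_def]
    -- it is enough to compare neighbourhoods of the identity
    have key : @nhds _ (tau I) (1 : Gp I) ≤ @nhds _ t' (1 : Gp I) := by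
      intro O hO
      by_contra hcon
      rw [(semi_hasBasis (Gam I).subtype levelSub levelSub_anti Gam_level).mem_iff] at hcon
      have h1 : ∀ j : ℕ, ∃ x : N I, x ∈ (levelSub j : Subgroup (N I)) ∧
          (SemidirectProduct.inl x : Gp I) ∉ O := by
        intro j
        by_contra h
        apply hcon
        refine ⟨j, trivial, ?_⟩
        rintro g ⟨hg1, hg2⟩
        by_contra hgO
        apply h
        refine ⟨g.left, hg2, ?_⟩
        have : (SemidirectProduct.inl g.left : Gp I) = g :=
          SemidirectProduct.ext rfl hg1.symm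
        rwa [this]
      choose x hx hxO using h1
      -- bound the columns occurring in the supports
      obtain ⟨β, hβ⟩ := hI (⋃ n, (fun p : ℕ × I => p.2) ''
          ((Multiplicative.toAdd (x n)).support : Set (ℕ × I)))
        (Set.countable_iUnion fun n => (Finset.countable_toSet _).image _)
      have hcol : ∀ n, x n ∈ (colSub β : Subgroup (N I)) := by
        intro n p hp
        by_contra hne
        have := hβ p.2 (Set.mem_iUnion.2 ⟨n, p, Finsupp.mem_support_iff.2 hne, rfl⟩)
        exact absurd hp (not_le.2 this)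
      let γ : Gam I := ⟨shear β x hcol, shear_mem β x hcol hx⟩
      have hconj : ∀ n, (SemidirectProduct.inr γ : Gp I) * colSeq β n *
          (SemidirectProduct.inr γ : Gp I)⁻¹ = SemidirectProduct.inl (bas n β * x n) := by
        intro n
        have h := SemidirectProduct.inl_aut (φ := (Gam I).subtype) γ (bas n β)
        have h2 : (Gam I).subtype γ (bas n β) = bas n β * x n := shear_bas β x hcol n
        rw [h2] at h
        rw [h, map_inv]
        rfl
      have hx' : ∀ n, (SemidirectProduct.inl (x n) : Gp I) =
          colSeq β n * ((SemidirectProduct.inr γ : Gp I) * colSeq β n *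
          (SemidirectProduct.inr γ : Gp I)⁻¹) := by
        intro n
        rw [hconj]
        show _ = SemidirectProduct.inl (bas n β) * _
        rw [← map_mul, ← mul_assoc, self_mul_self, one_mul]
      let := t'
      have : IsTopologicalGroup (Gp I) := hg
      have hlim : Tendsto (colSeq β : ℕ → Gp I) atTop (𝓝 1) := hs _ ⟨β, rfl⟩
      have hlim2 : Tendsto (fun n => (SemidirectProduct.inl (x n) : Gp I)) atTop (𝓝 1) := by
        have h3 := hlim.mul ((hlim.const_mul (SemidirectProduct.inr γ : Gp I)).mul_const
          (SemidirectProduct.inr γ : Gp I)⁻¹)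
        have h4 : (1 : Gp I) * ((SemidirectProduct.inr γ : Gp I) * 1 *
          (SemidirectProduct.inr γ : Gp I)⁻¹) = 1 := by group
        rw [h4] at h3
        refine h3.congr fun n => ?_
        rw [hx' n]
      obtain ⟨n, hn⟩ := (hlim2.eventually hO).exists
      exact hxO n hn
    intro s hs'
    rw [@isOpen_iff_mem_nhds _ (tau I)]
    intro a ha
    have e1 : @nhds _ (tau I) a = Filter.map (a * ·) (@nhds _ (tau I) 1) := by
      let := tau I
      have : IsTopologicalGroup (Gp I) := tau_group
      exact (map_mul_left_nhds_one a).symm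
    have e2 : @nhds _ t' a = Filter.map (a * ·) (@nhds _ t' 1) := by
      let := t'
      have : IsTopologicalGroup (Gp I) := hg
      exact (map_mul_left_nhds_one a).symm
    have h5 : s ∈ @nhds _ t' a := by
      let := t'
      exact hs'.mem_nhds ha
    rw [e2] at h5
    rw [e1]
    exact Filter.map_mono key h5

theorem not_generates_countable [Nonempty I]
    (hI : ∀ C : Set I, C.Countable → ∃ β : I, ∀ i ∈ C, i < β)
    (S : Set (ℕ → Gp I)) (hS : S.Countable) : ¬ Generates (Gp I) S (tau I) := by
  rintro ⟨⟨-, -, hconv⟩, hfin⟩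
  obtain ⟨β, hβ⟩ := hI (⋃ u ∈ S, ⋃ n : ℕ, (fun p : ℕ × I => p.2) ''
      ((Multiplicative.toAdd ((u n).left)).support : Set (ℕ × I)))
    (hS.biUnion fun u _ => Set.countable_iUnion fun n => (Finset.countable_toSet _).image _)
  have hadm : Admissible (Gp I) S (tauCut β) := by
    refine ⟨tauCut_group β, tauCut_t2 β, ?_⟩
    intro u hu
    have h := hconv u hu
    rw [semi_tendsto_iff] at h ⊢
    intro j
    filter_upwards [h j] with n hn
    refine ⟨hn.1, hn.2, ?_⟩
    intro p hp
    by_contra hne
    have := hβ p.2 (Set.mem_biUnion hu (Set.mem_iUnion.2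
      ⟨n, p, Finsupp.mem_support_iff.2 hne, rfl⟩))
    exact absurd hp (not_le.2 this)
  have hle := hfin _ hadm
  -- the subgroup `colSub β` is open in the finer topology, but not in `tau`
  have h1 : inSemi (Gam I).subtype (cutSub β 0) ∈ @nhds _ (tauCut β) (1 : Gp I) :=
    (semi_hasBasis (Gam I).subtype (cutSub β) (cutSub_anti β) (Gam_cut β)).mem_of_mem trivial
  have h2 : inSemi (Gam I).subtype (cutSub β 0) ∈ @nhds _ (tau I) (1 : Gp I) :=
    nhds_mono hle h1
  rw [(semi_hasBasis (Gam I).subtype levelSub levelSub_anti Gam_level).mem_iff] at h2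
  obtain ⟨j, -, hj⟩ := h2
  have h3 := hj (inSemi_inl (bas_level j β))
  exact bas_not_col j β h3.2.2

end

/-- A linear order of size `ℵ₁` in which countable sets are strictly bounded. -/
theorem exists_omega_one : ∃ (I : Type) (_ : LinearOrder I), Nonempty I ∧
    Cardinal.mk I = Cardinal.aleph 1 ∧ ∀ C : Set I, C.Countable → ∃ β : I, ∀ i ∈ C, i < β := by
  have hcard : Cardinal.mk (Cardinal.aleph 1).ord.ToType = Cardinal.aleph 1 := by
    rw [Cardinal.mk_toType, Cardinal.card_ord]
  have hIio : ∀ i : (Cardinal.aleph 1).ord.ToType, (Set.Iio i).Countable := by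
    intro i
    have h := Cardinal.mk_Iio_lt i (by rw [hcard, Ordinal.type_toType])
    rw [hcard] at h
    rw [← Set.countable_coe_iff, ← Cardinal.mk_le_aleph0_iff]
    by_contra hcon
    rw [not_le, ← Cardinal.aleph_one_le_iff] at hcon
    exact absurd h (not_lt.2 hcon)
  refine ⟨(Cardinal.aleph 1).ord.ToType, inferInstance, ?_, hcard, ?_⟩
  · rw [← Cardinal.mk_ne_zero_iff, hcard]
    exact (Cardinal.aleph_pos 1).ne'
  · intro C hC
    by_contra hcon
    have hcon' : ∀ β : (Cardinal.aleph 1).ord.ToType, ∃ i ∈ C, β ≤ i := by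
      intro β
      by_contra hβ
      apply hcon
      refine ⟨β, fun i hi => ?_⟩
      by_contra hlt
      exact hβ ⟨i, hi, not_lt.1 hlt⟩
    have huniv : (Set.univ : Set (Cardinal.aleph 1).ord.ToType) ⊆ ⋃ i ∈ C, Set.Iic i := by
      intro β _
      obtain ⟨i, hi, hβ⟩ := hcon' β
      exact Set.mem_biUnion hi hβ
    have hcount : (Set.univ : Set (Cardinal.aleph 1).ord.ToType).Countable := by
      refine (hC.biUnion fun i _ => ?_).mono huniv
      rw [← Set.Iio_insert]
      exact (hIio i).insert i
    have h1 : Cardinal.mk (Cardinal.aleph 1).ord.ToType ≤ Cardinal.aleph0 := by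
      rw [Cardinal.mk_le_aleph0_iff]
      exact Set.countable_univ_iff.1 hcount
    rw [hcard] at h1
    exact absurd h1 (not_le.2 Cardinal.aleph0_lt_aleph_one)

/-- A first countable Hausdorff group is metrizable (Birkhoff and Kakutani). -/
theorem metrizable_of_firstCountable (G : Type) [Group G] [TopologicalSpace G]
    [IsTopologicalGroup G] [T2Space G] [FirstCountableTopology G] :
    TopologicalSpace.MetrizableSpace G := by
  let := IsTopologicalGroup.rightUniformSpace G
  have : (uniformity G).IsCountablyGenerated := by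
    rw [uniformity_eq_comap_nhds_one']
    infer_instance
  exact UniformSpace.metrizableSpace

/-- In ZFC there is a metrizable (in particular Frechet-Urysohn) Hausdorff topological group
whose sequence-rank is `ω₁`. -/
theorem main :
    ∃ (G : Type) (_ : Group G) (t : TopologicalSpace G),
      IsTopologicalGroup G ∧ T2Space G ∧ TopologicalSpace.MetrizableSpace G ∧
      FrechetUrysohnSpace G ∧ seqRank G t = Cardinal.aleph 1 := by
  obtain ⟨I, hlin, hne, hcard, hI⟩ := exists_omega_one
  let := tau I
  have hg : IsTopologicalGroup (Gp I) := tau_group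
  have ht2 : T2Space (Gp I) := tau_t2
  have hfc : FirstCountableTopology (Gp I) := semi_firstCountable _ _ _ _
  refine ⟨Gp I, inferInstance, tau I, hg, ht2, metrizable_of_firstCountable _,
    inferInstance, ?_⟩
  unfold seqRank
  apply le_antisymm
  · have h1 : sInf {κ : Cardinal.{0} | ∃ S : Set (ℕ → Gp I), Cardinal.mk S = κ ∧
        Generates (Gp I) S (tau I)} ≤ Cardinal.mk (Set.range (colSeq : I → ℕ → Gp I)) :=
      csInf_le' ⟨_, rfl, generates_columns hI⟩
    refine h1.trans ?_
    rw [← hcard]
    exact Cardinal.mk_range_le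
  · apply le_csInf
    · exact ⟨_, _, rfl, generates_columns hI⟩
    · rintro κ ⟨S, rfl, hS⟩
      rw [Cardinal.aleph_one_le_iff]
      by_contra hle
      rw [not_lt, Cardinal.mk_le_aleph0_iff, Set.countable_coe_iff] at hle
      exact not_generates_countable hI S hle hS

end Pool.Agent.MP_2f4f34_gt.ZFCExample
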